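import Pool.Agent.N65.GP.Defs

set_option autoImplicit false

/-!
# Project GP (helper65), part HD: the integrals are holomorphic in the parameters, and continuous

Author: helper160.
-/

namespace Pool.Agent.N160.GP.HD

open Complex Set Topology MeasureTheory
open Filter (Eventually)
open Pool.Agent.N65.GP

/-- holomorphic dependence of an integral on a parameter -/
theorem diff_int {F F' : ℂ → ℝ → ℂ} {U : Set ℂ} (hU : IsOpen U)
    (hF : ∀ z ∈ U, Continuous (F z)) (hF' : ∀ z ∈ U, Continuous (F' z))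
    (hd : ∀ z ∈ U, ∀ t, HasDerivAt (fun z => F z t) (F' z t) z)
    (hb : ∀ z ∈ U, ∃ s ∈ 𝓝 z, s ⊆ U ∧ ∃ b : ℝ → ℝ, Continuous b ∧
      ∀ t, ∀ w ∈ s, ‖F' w t‖ ≤ b t) :
    DifferentiableOn ℂ (fun z => ∫ t in (0 : ℝ)..1, F z t) U := by
  intro z hz
  obtain ⟨s, hs, hsU, b, hbc, hbb⟩ := hb z hz
  have h := intervalIntegral.hasDerivAt_integral_of_dominated_loc_of_deriv_le
    (μ := volume) (a := 0) (b := 1) (F := F) (F' := F') (x₀ := z) (bound := b) hs
    (by
      filter_upwards [hU.mem_nhds hz] with w hw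
      exact (hF w hw).aestronglyMeasurable)
    ((hF z hz).intervalIntegrable 0 1) (hF' z hz).aestronglyMeasurable
    (Filter.Eventually.of_forall fun t _ w hw => hbb t w hw) (hbc.intervalIntegrable 0 1)
    (Filter.Eventually.of_forall fun t _ w hw => hd w (hsU hw) t)
  exact h.2.differentiableAt.differentiableWithinAt

theorem isOpen_ext (R : ℝ) : IsOpen {c : ℂ | R < ‖c‖} := isOpen_lt continuous_const continuous_norm

theorem slit {m y : ℂ} {R : ℝ} (hR : 0 < R) (hm : R < ‖m‖) (hy : ‖y‖ < R) :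
    1 - y / m ∈ slitPlane := by
  have h1 : ‖-(y / m)‖ < 1 := by
    rw [norm_neg, norm_div, div_lt_one (hR.trans hm)]
    exact hy.trans hm
  have h2 := Complex.mem_slitPlane_of_norm_lt_one h1
  rwa [← sub_eq_add_neg] at h2

theorem ne_of_lt' {c x : ℂ} {R : ℝ} (hc : R < ‖c‖) (hx : ‖x‖ < R) : x - c ≠ 0 := by
  intro h
  rw [sub_eq_zero.1 h] at hx
  exact lt_asymm hc hx

section

variable {γ : Loop} {R : ℝ}

theorem cont_log (hγ : ∀ t, ‖γ.x t‖ < R ∧ ‖γ.y t‖ < R) (hR : 0 < R) {m : ℂ} (hm : R < ‖m‖) :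
    Continuous fun t => Complex.log (1 - γ.y t / m) :=
  Continuous.clog (continuous_const.sub (γ.hy.continuous.div_const m))
    fun t => slit hR hm (hγ t).2

theorem cont_dx (γ : Loop) : Continuous fun t => deriv γ.x t := γ.hx.continuous_deriv (by norm_num)

theorem nhd {c : ℂ} (hc : R < ‖c‖) : ∃ δ : ℝ, 0 < δ ∧
    Metric.ball c δ ⊆ {c | R < ‖c‖} ∧ ∀ w ∈ Metric.ball c δ, R + δ ≤ ‖w‖ := by
  refine ⟨(‖c‖ - R) / 2, by linarith, ?_, ?_⟩
  · intro w hw
    rw [Metric.mem_ball, dist_eq_norm] at hw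
    have h1 := norm_sub_norm_le c w
    rw [norm_sub_rev] at h1
    change R < ‖w‖
    linarith
  · intro w hw
    rw [Metric.mem_ball, dist_eq_norm] at hw
    have h1 := norm_sub_norm_le c w
    rw [norm_sub_rev] at h1
    linarith

theorem part1 (hγ : ∀ t, ‖γ.x t‖ < R ∧ ‖γ.y t‖ < R) (hR : 0 < R) {m : ℂ} (hm : R < ‖m‖) :
    DifferentiableOn ℂ (fun c => γ.int (ker m c)) {c | R < ‖c‖} := by
  unfold Loop.int ker
  refine diff_int (F' := fun c t => Complex.log (1 - γ.y t / m) / (γ.x t - c) ^ 2 * deriv γ.x t)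
    (isOpen_ext R) ?_ ?_ ?_ ?_
  · intro c hc
    exact ((cont_log hγ hR hm).div (γ.hx.continuous.sub continuous_const)
      fun t => ne_of_lt' hc (hγ t).1).mul (cont_dx γ)
  · intro c hc
    exact ((cont_log hγ hR hm).div ((γ.hx.continuous.sub continuous_const).pow 2)
      fun t => pow_ne_zero 2 (ne_of_lt' hc (hγ t).1)).mul (cont_dx γ)
  · intro c hc t
    have h0 := ne_of_lt' hc (hγ t).1
    have h1 : HasDerivAt (fun c : ℂ => γ.x t - c) (-1) c := (hasDerivAt_id c).const_sub _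
    have h2 := ((h1.fun_inv h0).const_mul (Complex.log (1 - γ.y t / m))).mul_const (deriv γ.x t)
    have h3 : (fun c : ℂ => Complex.log (1 - γ.y t / m) / (γ.x t - c) * deriv γ.x t) =
        fun c : ℂ => Complex.log (1 - γ.y t / m) * (γ.x t - c)⁻¹ * deriv γ.x t := by
      funext c
      rw [div_eq_mul_inv]
    rw [h3]
    refine h2.congr_deriv ?_
    rw [neg_neg]
    ring
  · intro c hc
    obtain ⟨δ, hδ, h1, h2⟩ := nhd hc
    refine ⟨Metric.ball c δ, Metric.ball_mem_nhds c hδ, h1,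
      fun t => ‖Complex.log (1 - γ.y t / m)‖ / δ ^ 2 * ‖deriv γ.x t‖, ?_, ?_⟩
    · exact ((cont_log hγ hR hm).norm.div_const _).mul (cont_dx γ).norm
    · intro t w hw
      rw [norm_mul, norm_div, norm_pow]
      have h3 : δ ≤ ‖γ.x t - w‖ := by
        have h4 := norm_sub_norm_le w (γ.x t)
        rw [norm_sub_rev] at h4
        have h5 := h2 w hw
        have h6 := (hγ t).1
        linarith
      refine mul_le_mul_of_nonneg_right ?_ (norm_nonneg _)
      exact div_le_div_of_nonneg_left (norm_nonneg _) (by positivity)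
        (pow_le_pow_left₀ hδ.le h3 2)

theorem part2 (hγ : ∀ t, ‖γ.x t‖ < R ∧ ‖γ.y t‖ < R) (hR : 0 < R) {c : ℂ} (hc : R < ‖c‖) :
    DifferentiableOn ℂ (fun m => γ.int (ker m c)) {m | R < ‖m‖} := by
  unfold Loop.int ker
  refine diff_int (F' := fun m t => (γ.y t / m ^ 2) / (1 - γ.y t / m) / (γ.x t - c) *
    deriv γ.x t) (isOpen_ext R) ?_ ?_ ?_ ?_
  · intro m hm
    exact ((cont_log hγ hR hm).div (γ.hx.continuous.sub continuous_const)
      fun t => ne_of_lt' hc (hγ t).1).mul (cont_dx γ)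
  · intro m hm
    refine Continuous.mul (Continuous.div (Continuous.div (γ.hy.continuous.div_const _)
      (continuous_const.sub (γ.hy.continuous.div_const m)) fun t => ?_)
      (γ.hx.continuous.sub continuous_const) fun t => ne_of_lt' hc (hγ t).1) (cont_dx γ)
    exact slitPlane_ne_zero (slit hR hm (hγ t).2)
  · intro m hm t
    have hm0 : m ≠ 0 := norm_pos_iff.1 (hR.trans hm)
    have h1 : HasDerivAt (fun m : ℂ => 1 - γ.y t / m) (γ.y t / m ^ 2) m := by
      have h2 := ((hasDerivAt_id m).fun_inv hm0).const_mul (γ.y t)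
      have h3 := h2.const_sub 1
      have h4 : (fun m : ℂ => 1 - γ.y t / m) = fun m : ℂ => 1 - γ.y t * (id m)⁻¹ := by
        funext m
        rw [div_eq_mul_inv, id]
      rw [h4]
      refine h3.congr_deriv ?_
      rw [id]
      ring
    have h2 := ((h1.clog (slit hR hm (hγ t).2)).div_const (γ.x t - c)).mul_const (deriv γ.x t)
    exact h2
  · intro m hm
    obtain ⟨δ, hδ, h1, h2⟩ := nhd hm
    refine ⟨Metric.ball m δ, Metric.ball_mem_nhds m hδ, h1,
      fun t => (1 / R) / (δ / (R + δ)) / ‖γ.x t - c‖ * ‖deriv γ.x t‖, ?_, ?_⟩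
    · refine Continuous.mul (Continuous.div continuous_const
        (γ.hx.continuous.sub continuous_const).norm fun t => ?_) (cont_dx γ).norm
      exact norm_ne_zero_iff.2 (ne_of_lt' hc (hγ t).1)
    · intro t w hw
      rw [norm_mul, norm_div, norm_div]
      have h5 := h2 w hw
      have h6 := (hγ t).2
      have hw0 : 0 < ‖w‖ := by linarith
      refine mul_le_mul_of_nonneg_right ?_ (norm_nonneg _)
      refine div_le_div_of_nonneg_right ?_ (norm_nonneg _)
      have h7 : ‖γ.y t / w ^ 2‖ ≤ 1 / R := by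
        rw [norm_div, norm_pow, div_le_div_iff₀ (by positivity) hR]
        nlinarith [norm_nonneg (γ.y t)]
      have h8 : δ / (R + δ) ≤ ‖1 - γ.y t / w‖ := by
        have h9 := norm_sub_norm_le (1 : ℂ) (γ.y t / w)
        rw [norm_one, norm_div] at h9
        have h10 : ‖γ.y t‖ / ‖w‖ ≤ R / (R + δ) :=
          div_le_div₀ hR.le h6.le (by positivity) h5
        have h11 : δ / (R + δ) = 1 - R / (R + δ) := by
          field_simp
          ring
        linarith
      exact div_le_div₀ (by positivity) h7 (by positivity) h8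

theorem part3 (hγ : ∀ t, ‖γ.x t‖ < R ∧ ‖γ.y t‖ < R) (hR : 0 < R) :
    ContinuousOn (fun z : ℂ × ℂ => γ.int (ker z.1 z.2)) {z | R < ‖z.1‖ ∧ R < ‖z.2‖} := by
  rw [continuousOn_iff_continuous_domRestrict]
  unfold Loop.int ker
  apply intervalIntegral.continuous_parametric_intervalIntegral_of_continuous'
    (X := {z : ℂ × ℂ | R < ‖z.1‖ ∧ R < ‖z.2‖})
    (f := fun z t => Complex.log (1 - γ.y t / z.1.1) / (γ.x t - z.1.2) * deriv γ.x t)
  have hx : Continuous fun p : {z : ℂ × ℂ | R < ‖z.1‖ ∧ R < ‖z.2‖} × ℝ => γ.x p.2 :=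
    γ.hx.continuous.comp continuous_snd
  have hy : Continuous fun p : {z : ℂ × ℂ | R < ‖z.1‖ ∧ R < ‖z.2‖} × ℝ => γ.y p.2 :=
    γ.hy.continuous.comp continuous_snd
  have hdx : Continuous fun p : {z : ℂ × ℂ | R < ‖z.1‖ ∧ R < ‖z.2‖} × ℝ => deriv γ.x p.2 :=
    (cont_dx γ).comp continuous_snd
  have h1 : Continuous fun p : {z : ℂ × ℂ | R < ‖z.1‖ ∧ R < ‖z.2‖} × ℝ => p.1.1.1 :=
    continuous_fst.comp (continuous_subtype_val.comp continuous_fst)
  have h2 : Continuous fun p : {z : ℂ × ℂ | R < ‖z.1‖ ∧ R < ‖z.2‖} × ℝ => p.1.1.2 :=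
    continuous_snd.comp (continuous_subtype_val.comp continuous_fst)
  refine Continuous.mul (Continuous.div (Continuous.clog (continuous_const.sub
    (hy.div h1 fun p => ?_)) fun p => ?_) (hx.sub h2) fun p => ?_) hdx
  · exact norm_pos_iff.1 (hR.trans p.1.2.1)
  · exact slit hR p.1.2.1 (hγ p.2).2
  · exact ne_of_lt' p.1.2.2 (hγ p.2).1

end

theorem t_HD : S_HD := by
  intro γ R hγ
  have hR : 0 < R := (norm_nonneg _).trans_lt (hγ 0).1
  exact ⟨fun m hm => part1 hγ hR hm, fun c hc => part2 hγ hR hc, part3 hγ hR⟩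

end Pool.Agent.N160.GP.HD
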